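import Pool.Agent.Work.MP_f04a5a_co.Final

/-! Bounded degree trees have bipartite labellings with almost all edge values distinct. -/

namespace Pool.Agent.Results.MP_f04a5a_co.AlphaSize

/-- Every tree of maximum degree at most `Δ` on `n ≥ 2` vertices has a bipartite labelling with
labels `0, ..., n - 1` and at least `n - 28 (Δ + 2) n / log n` distinct edge values. -/
theorem result (Δ : ℕ) {V : Type*} [Fintype V] (G : SimpleGraph V) (hG : G.IsTree)
    (hdeg : ∀ v : V, (G.neighborSet v).ncard ≤ Δ) (hn : 2 ≤ Fintype.card V) :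
    ∃ f : V → ℤ,
      Function.Injective f ∧
      (∀ v : V, 0 ≤ f v ∧ f v ≤ (Fintype.card V : ℤ) - 1) ∧
      (∃ k : ℤ, 0 ≤ k ∧ k < (Fintype.card V : ℤ) - 1 ∧
        ∀ u v : V, G.Adj u v → min (f u) (f v) ≤ k ∧ k < max (f u) (f v)) ∧
      (Fintype.card V : ℝ) - 28 * (Δ + 2) * Fintype.card V / Real.log (Fintype.card V) ≤
        ({d : ℤ | ∃ u v : V, G.Adj u v ∧ |f u - f v| = d}.ncard : ℝ) :=
  Alp.alpha_size Δ G hG hdeg hn

end Pool.Agent.Results.MP_f04a5a_co.AlphaSize
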