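import Pool.Agent.Work.MP_f04a5a_co.Lob.Final

/-! Alpha-labellings of subcubic trees with a perfect matching whose contraction is a lobster. -/

namespace Pool.Agent.Results.MP_f04a5a_co.LobsterContraction

/-- Let `T` be a finite tree with all degrees at most three and with a perfect matching `M`. Let `C`
be the graph obtained by contracting the edges of `M`: its vertices are the edges of `M`, and two
different ones are adjacent when `T` has an edge between them. If `C` has a path such that every
vertex of `C` has distance at most two from the path, then `T` has an alpha-labelling. -/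
theorem result {V : Type*} [Fintype V] (T : SimpleGraph V) (hT : T.IsTree)
    (hdeg : ∀ v : V, (T.neighborSet v).ncard ≤ 3) (M : T.Subgraph) (hM : M.IsPerfectMatching)
    (C : SimpleGraph M.edgeSet)
    (hC : ∀ e f : M.edgeSet, C.Adj e f ↔
      e ≠ f ∧ ∃ a ∈ (e : Sym2 V), ∃ b ∈ (f : Sym2 V), T.Adj a b)
    (hlob : ∃ (x y : M.edgeSet) (p : C.Walk x y), p.IsPath ∧
      ∀ e : M.edgeSet, e ∈ p.support ∨ (∃ f ∈ p.support, C.Adj e f) ∨
        (∃ g : M.edgeSet, C.Adj e g ∧ ∃ f ∈ p.support, C.Adj g f)) :
    ∃ f : V → ℤ,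
      Function.Injective f ∧
      (∀ v : V, 0 ≤ f v ∧ f v ≤ (Fintype.card V : ℤ) - 1) ∧
      (∀ u v w x : V, T.Adj u v → T.Adj w x →
          |f u - f v| = |f w - f x| →
          (u = w ∧ v = x) ∨ (u = x ∧ v = w)) ∧
      ∃ k : ℤ, 0 ≤ k ∧ k < (Fintype.card V : ℤ) - 1 ∧
        ∀ u v : V, T.Adj u v →
          min (f u) (f v) ≤ k ∧ k < max (f u) (f v) :=
  LobW.alpha_of_lobster LobW.all_words_rel T hT hdeg M hM C hC hlob

end Pool.Agent.Results.MP_f04a5a_co.LobsterContraction
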