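import Pool.Agent.Work.MP_f04a5a_co.FinalB

/-! Bounded degree trees have bipartite labellings with all edge values distinct and a label range
only slightly longer than for an alpha-labelling. -/

namespace Pool.Agent.Results.MP_f04a5a_co.RangeRelaxed

/-- Every tree of maximum degree at most `Δ` on `n ≥ 2` vertices has a bipartite labelling with all
edge values distinct and all labels between `0` and `n + 200 (Δ + 1)^2 n / √(log n)`. -/
theorem result (Δ : ℕ) {V : Type*} [Fintype V] (G : SimpleGraph V) (hG : G.IsTree)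
    (hdeg : ∀ v : V, (G.neighborSet v).ncard ≤ Δ) (hn : 2 ≤ Fintype.card V) :
    ∃ f : V → ℤ,
      Function.Injective f ∧
      (∀ v : V, 0 ≤ f v ∧ (f v : ℝ) ≤ Fintype.card V +
        200 * (Δ + 1) ^ 2 * Fintype.card V / √(Real.log (Fintype.card V))) ∧
      (∃ k : ℤ, ∀ u v : V, G.Adj u v → min (f u) (f v) ≤ k ∧ k < max (f u) (f v)) ∧
      (∀ u v w x : V, G.Adj u v → G.Adj w x → |f u - f v| = |f w - f x| →
        (u = w ∧ v = x) ∨ (u = x ∧ v = w)) :=
  Alp.range_relaxed Δ G hG hdeg hn

end Pool.Agent.Results.MP_f04a5a_co.RangeRelaxed
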